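import Pool.Agent.W932.RO.Defs

/-!
# The W-hierarchy relative to a random oracle: the statements of the parts
-/

set_option autoImplicit false

namespace Pool.Agent.W932.RO

open Finset MeasureTheory Pool.Agent.NPC H568R2 Pool.Agent.H676
open Pool.Agent.H620R2.Gauge Pool.Agent.H591R3.PHG Pool.Agent.W911.AL
open Pool.Agent.W911.IB (LocalAt)

/-- RO-LB -/
def StmLB : Prop := ∀ (n u t m : ℕ) (as : List ℕ), 5 ≤ n → 8 * u ≤ n → GoodSz n (t + 1) as →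
  (t + 1) * (2 * m + 2) + 20 ≤ 2 ^ (2 * u) →
  ∀ F : List Bool → (Idx Unit (8 * n :: pw as) → Bool) → Bool,
    (∀ y : List Bool, y.length ≤ (t + 1) * (2 * m + 1) → DTr (2 ^ (2 * u)) (F y)) →
    agr as (8 * n) (QF m F (t + 1) true []) ≤ 1 - 1 / 2048

/-- RO-SZ -/
def StmSZ : Prop := ∀ n t : ℕ, 5 ≤ n → ∃ as, GoodSz n (t + 1) as

open Classical in
/-- RO-CORE -/
def StmCore : Prop := ∀ (Y Ω : Type) [Fintype Y] [DecidableEq Y] [Fintype Ω] (w : Ω → ℝ),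
  (∀ a, 0 ≤ w a) → ∑ a, w a = 1 → ∀ (mark T : Ω → Prop), (∀ a, T a → mark a) →
  ∀ (R : (Y → Ω) → Prop) (tch : Y → (Y → Ω) → Prop),
  (∀ y z a, tch y (Function.update z y a) ↔ tch y z) → ∀ (Q p ε : ℝ),
  (∀ z, ((univ.filter (fun y => tch y z)).card : ℝ) ≤ Q) → ∑ a ∈ univ.filter mark, w a = p →
  0 ≤ ε →
  (∀ y z, ¬ tch y z → ε * p ≤
    ∑ a, w a * (if mark a ∧ ¬ (R (Function.update z y a) ↔ T a) then (1 : ℝ) else 0)) →
  Ex w (fun z : Y → Ω => if (R z ↔ ∃ y, T (z y)) then (1 : ℝ) else 0) ≤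
    1 - ε * p * (Fintype.card Y * (1 - p) ^ (Fintype.card Y - 1) - Q)

open Classical in
/-- RO-MEAS, first part -/
def StmMeas : Prop := ∀ (J : Type) [Fintype J] [DecidableEq J] (pos : J → List Bool),
  Function.Injective pos → ∀ ℓ ℓ' : ℕ, (∀ j, ℓ < (pos j).length) → ∀ G E : Set Oracle,
  LocalAt ℓ G → LocalAt ℓ' E → ∀ δ : ℝ, 0 ≤ δ →
  (∀ A : Oracle, Ex unif (fun z : J → Bool => if ovr pos A z ∈ E then (1 : ℝ) else 0) ≤ δ) →
  fair (G ∩ E) ≤ ENNReal.ofReal δ * fair G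

/-- RO-MEAS, second part -/
def StmNull : Prop := ∀ (C : Set Oracle) (δ : ℝ), 0 ≤ δ → δ < 1 →
  (∀ ℓ, ∃ (E : Set Oracle) (ℓ' : ℕ), C ⊆ E ∧ LocalAt ℓ' E ∧
    ∀ G, LocalAt ℓ G → fair (G ∩ E) ≤ ENNReal.ofReal δ * fair G) → fair C = 0

/-- RO-MACH, the questions -/
def StmAsked : Prop := ∀ (M : Alg) (A A' : Oracle) (x : List Bool) (n : ℕ) (a : List Bool),
  (asked M A x n a).length ≤ n ∧ ((∀ q ∈ asked M A x n a, A' q = A q) →
    M.run A' x n a = M.run A x n a ∧ asked M A' x n a = asked M A x n a)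

/-- RO-MACH, the decision tree -/
def StmDTr : Prop := ∀ (M : Alg) (x : List Bool) (n : ℕ) (a : List Bool) (I : Type) [Fintype I]
  [DecidableEq I] (O : (I → Bool) → Oracle),
  (∀ q, (∃ b, ∀ z, O z q = b) ∨ ∃ i, ∀ z, O z q = z i) →
  DTr n (fun z => decide (M.run (O z) x (n + 1) a = some [true]))

/-- RO-MACH, locality -/
def StmLoc : Prop := ∀ (P M : Alg) (t m : ℕ) (y : List Bool), ∃ ℓ : ℕ, ∀ A A' : Oracle,
  (∀ w : List Bool, w.length ≤ ℓ → A w = A' w) → (Ans A P M t m y ↔ Ans A' P M t m y)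

/-- RO-NUM -/
def StmNum : Prop := ∀ (β : ℝ) (r : ℕ), 1 / 2048 ≤ β → β ≤ 1 - 1 / 2048 → 2048 ≤ r →
  ∃ μ : ℕ, r / 2048 ≤ μ ∧ μ ≤ 11 * r ∧ ∀ Q : ℝ, 16 * Q ≤ 2 ^ μ →
    1 / 16 ≤ β ^ r * (2 ^ μ * (1 - β ^ r) ^ (2 ^ μ - 1) - Q)

/-- RO-POLY -/
def StmPoly : Prop := PolyNat kap ∧ ∀ (t : ℕ) (A : Oracle), Small A (t + 1) kap (lang t A)

/-- RO-LANG, membership -/
def StmLang : Prop := ∀ (t n K μ s : ℕ) (as : List ℕ) (x : List Bool) (A : Oracle),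
  Inst (t + 1) n K μ s as x → as.length = t + 1 →
  (x ∈ lang (t + 1) A ↔ ∃ y : Fin (2 ^ μ), ∀ g : Fin (2 ^ s),
    tv as (8 * n) (fun i => A (ps x μ s as (8 * n) (y, g, i))) = true)

/-- RO-LANG, existence -/
def StmInst : Prop := ∀ (t n K μ s : ℕ) (as : List ℕ), as.length = t + 1 →
  (∀ a ∈ as, a ≤ 64 * n) → s ≤ n → μ ≤ K * (65 * n) →
  2 * (K + 8 * n + μ + s + as.sum + t + 5) < 2 ^ (65 * n - 1) →
  ∃ x : List Bool, Inst (t + 1) n K μ s as x ∧ lg x = 65 * n ∧ x.length = 2 ^ (65 * n - 1)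

/-- RO-POS, the positions are different -/
def StmPos : Prop := ∀ (x : List Bool) (μ s : ℕ) (as : List ℕ) (w : ℕ),
  Function.Injective (ps x μ s as w) ∧ ∀ j, x.length + μ + s ≤ (ps x μ s as w j).length

end Pool.Agent.W932.RO
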