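import Pool.Agent.W932.RO.Defs

/-!
# Weighted satisfiability of formulas relative to a random oracle: definitions
-/

set_option autoImplicit false

namespace Pool.Agent.W932.RO

open Finset MeasureTheory Pool.Agent.NPC H568R2 Pool.Agent.H676
open Pool.Agent.H620R2.Gauge Pool.Agent.H591R3.PHG Pool.Agent.W911.AL

/-- a list of natural numbers, as a string -/
def code : List ℕ → List Bool
  | [] => []
  | a :: l => List.replicate a true ++ false :: code l

/-- The small class for formulas: `x ∈ Q` if and only if for some string `w` of `b₀ x` bits, where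
`b₀ x ≤ κ x * lg x`, the tree of NOR gates with the numbers of children `2 ^ a₁, ..., 2 ^ aᵣ`
(from the root to the leaves, where `[a₁, ..., aᵣ] = b x` and `a₁ + ⋯ + aᵣ ≤ lg x`, so the tree
has at most `2 ^ lg x` leaves) has the value `true`; the value of the leaf with the branch `q` is
`true` if the word of `v x ≤ lg x` bits of the oracle at the address `x w q` is zero. -/
def SmallSat (A : Oracle) (κ : List Bool → ℕ) (Q : Set (List Bool)) : Prop :=
  ∃ (b₀ : List Bool → ℕ) (b : List Bool → List ℕ) (v : List Bool → ℕ),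
    PolyNat b₀ ∧ PolyTime (fun x => code (b x)) ∧ PolyNat v ∧ (∀ x, b₀ x ≤ κ x * lg x) ∧
    (∀ x, (b x).sum ≤ lg x) ∧ (∀ x, v x ≤ lg x) ∧
    ∀ x, x ∈ Q ↔ ∃ w : List Bool, w.length = b₀ x ∧
      ((b x).foldr up (bitv A (v x))) (x ++ w) = true

/-- The big class with a number of alternations depending on the parameter: as `Big`, with
`g (κ x) + 1` alternating blocks; the functions `α`, `h` and `g` are arbitrary. -/
def BigStar (A : Oracle) (κ : List Bool → ℕ) (Q : Set (List Bool)) : Prop :=
  ∃ (P : List Bool → List Bool) (M : Alg) (α : ℕ → List Bool) (h g : ℕ → ℕ), IsFP A P ∧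
    ∀ x, x ∈ Q ↔ Alt (h (κ x) * lg x) (fun u =>
      M.run A (pairBits (P (pairBits x (α (κ x)))) u) (h (κ x) * lg x + 1) [] = some [true])
      (g (κ x) + 1) true []

/-- the numbers in the input -/
def szs (x : List Bool) : List ℕ :=
  if ((List.range (num 3 x)).map fun i => num (i + 4) x).sum ≤ lg x then
    (List.range (num 3 x)).map fun i => num (i + 4) x else []

/-- the language -/
def langS (A : Oracle) : Set (List Bool) :=
  {x | ∃ w : List Bool, w.length = bl 0 x ∧ ((szs x).foldr up (bitv A (wl x))) (x ++ w) = true}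

/-- `s` is added to the first number of the list -/
def addHead (s : ℕ) : List ℕ → List ℕ
  | [] => []
  | a :: l => (a + s) :: l

/-- An instance with good parameters. -/
structure InstS (n K μ s : ℕ) (as : List ℕ) (x : List Bool) : Prop where
  kap : kap x = K
  wl : wl x = 8 * n
  bl0 : bl 0 x = μ
  szs : szs x = addHead s as.reverse

/-- RO-S1 -/
def StmPolyS : Prop := ∀ A : Oracle, SmallSat A kap (langS A)

/-- RO-S2, membership -/
def StmLangS : Prop := ∀ (t n K μ s : ℕ) (as : List ℕ) (x : List Bool) (A : Oracle),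
  InstS n K μ s as x → as.length = t + 1 →
  (x ∈ langS A ↔ ∃ y : Fin (2 ^ μ), ∀ g : Fin (2 ^ s),
    tv as (8 * n) (fun i => A (ps x μ s as (8 * n) (y, g, i))) = true)

/-- RO-S2, existence -/
def StmInstS : Prop := ∀ (t n K μ s : ℕ) (as : List ℕ), as.length = t + 1 →
  (∀ a ∈ as, a ≤ 64 * n) → s ≤ n → μ ≤ K * (65 * (t + 1) * n) →
  2 * (K + 8 * n + μ + s + as.sum + 2 * t + 8) < 2 ^ (65 * (t + 1) * n - 1) →
  ∃ x : List Bool, InstS n K μ s as x ∧ lg x = 65 * (t + 1) * n ∧
    x.length = 2 ^ (65 * (t + 1) * n - 1)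

/-- RO-INCL, the small class is contained in the big class -/
def StmIncl : Prop := ∀ (A : Oracle) (t : ℕ) (κ : List Bool → ℕ) (Q : Set (List Bool)),
  PolyNat κ → Small A t κ Q → Big A t κ Q

/-- RO-INCL, the big classes grow -/
def StmMono : Prop := ∀ (A : Oracle) (t : ℕ) (κ : List Bool → ℕ) (Q : Set (List Bool)),
  Big A t κ Q → Big A (t + 1) κ Q

end Pool.Agent.W932.RO
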