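import Pool.Agent.W932.RO.Cur

/-! The W-hierarchy relative to a random oracle: the bound for one instance. -/

set_option autoImplicit false

namespace Pool.Agent.W932.RO

open Finset MeasureTheory Pool.Agent.NPC H568R2 Pool.Agent.H676
open Pool.Agent.H620R2.Gauge Pool.Agent.H591R3.PHG Pool.Agent.W911.AL

theorem ite_iff1 {p q : Prop} {dp : Decidable p} {dq : Decidable q} (h : p ↔ q) :
    @ite ℝ p dp 1 0 = @ite ℝ q dq 1 0 := by
  by_cases hp : p
  · rw [if_pos hp, if_pos (h.1 hp)]
  · rw [if_neg hp, if_neg fun hq => hp (h.2 hq)]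

theorem ovr_pos {J : Type} {pos : J → List Bool} (hp : Function.Injective pos) (A : Oracle)
    (z : J → Bool) (j : J) : ovr pos A z (pos j) = z j := by
  unfold ovr
  have h : ∃ j', pos j' = pos j := ⟨j, rfl⟩
  rw [dif_pos h]
  exact congrArg z (hp h.choose_spec)

theorem ovr_off {J : Type} {pos : J → List Bool} (A : Oracle)
    (z : J → Bool) (q : List Bool) (h : ¬ ∃ j, pos j = q) : ovr pos A z q = A q := by
  unfold ovr
  rw [dif_neg h]

section

variable {Y K : Type} [Fintype Y] [DecidableEq Y] [Fintype K] [DecidableEq K]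

/-- the oracle, from the bits of the blocks -/
noncomputable def OO (pos : Y × K → List Bool) (A : Oracle) (Z : Y → K → Bool) : Oracle :=
  ovr pos A (fun p => Z p.1 p.2)

theorem OO_update {pos : Y × K → List Bool} (hp : Function.Injective pos) (A : Oracle)
    (Z : Y → K → Bool) (y : Y) (σ : K → Bool) (q : List Bool) (h : ∀ k, pos (y, k) ≠ q) :
    OO pos A (Function.update Z y σ) q = OO pos A Z q := by
  by_cases hq : ∃ j, pos j = q
  · obtain ⟨⟨y', k⟩, rfl⟩ := hq
    have hy : y' ≠ y := by
      rintro rfl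
      exact h k rfl
    unfold OO
    rw [ovr_pos hp, ovr_pos hp]
    show Function.update Z y σ y' k = Z y' k
    rw [Function.update_of_ne hy]
  · unfold OO
    rw [ovr_off _ _ _ hq, ovr_off _ _ _ hq]

/-- the machine asks a question in the block `y` -/
def Tch (pos : Y × K → List Bool) (A : Oracle) (P : Alg) (x : List Bool) (y : Y)
    (Z : Y → K → Bool) : Prop :=
  ∃ q ∈ asked P (OO pos A Z) x (P.p.eval x.length) [], ∃ k, pos (y, k) = q

theorem run_update (hAsk : StmAsked) {pos : Y × K → List Bool} (hp : Function.Injective pos)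
    (A : Oracle) (P : Alg) (x : List Bool) (y : Y) (Z : Y → K → Bool)
    (h : ¬ Tch pos A P x y Z) (σ : K → Bool) :
    P.out (OO pos A (Function.update Z y σ)) x = P.out (OO pos A Z) x ∧
      ¬ Tch pos A P x y (Function.update Z y σ) := by
  have h1 := (hAsk P (OO pos A Z) (OO pos A (Function.update Z y σ)) x (P.p.eval x.length) []).2
    (fun q hq => OO_update hp A Z y σ q fun k hk => h ⟨q, hq, k, hk⟩)
  refine ⟨h1.1, ?_⟩
  rintro ⟨q, hq, k, hk⟩
  rw [h1.2] at hq
  exact h ⟨q, hq, k, hk⟩

theorem Tch_update (hAsk : StmAsked) {pos : Y × K → List Bool} (hp : Function.Injective pos)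
    (A : Oracle) (P : Alg) (x : List Bool) (y : Y) (Z : Y → K → Bool) (σ : K → Bool) :
    Tch pos A P x y (Function.update Z y σ) ↔ Tch pos A P x y Z := by
  constructor
  · intro h
    by_contra h2
    exact (run_update hAsk hp A P x y Z h2 σ).2 h
  · intro h
    by_contra h2
    have h3 := (run_update hAsk hp A P x y (Function.update Z y σ) h2 (Z y)).2
    rw [Function.update_idem, Function.update_eq_self] at h3
    exact h3 h

open Classical in
theorem Tch_card (hAsk : StmAsked) {pos : Y × K → List Bool} (hp : Function.Injective pos)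
    (A : Oracle) (P : Alg) (x : List Bool) (Z : Y → K → Bool) :
    (univ.filter (fun y => Tch pos A P x y Z)).card ≤ P.p.eval x.length := by
  have h1 := (hAsk P (OO pos A Z) (OO pos A Z) x (P.p.eval x.length) []).1
  refine le_trans ?_ h1
  refine le_trans ?_ (List.toFinset_card_le _)
  have hc : ∀ y ∈ univ.filter (fun y => Tch pos A P x y Z), ∃ q,
      q ∈ (asked P (OO pos A Z) x (P.p.eval x.length) []).toFinset ∧ ∃ k, pos (y, k) = q := by
    intro y hy
    obtain ⟨q, hq, hk⟩ := (Finset.mem_filter.1 hy).2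
    exact ⟨q, List.mem_toFinset.2 hq, hk⟩
  choose! f hf using hc
  refine Finset.card_le_card_of_injOn f (fun y hy => (hf y hy).1) ?_
  intro y hy y' hy' he
  obtain ⟨k, hk⟩ := (hf y hy).2
  obtain ⟨k', hk'⟩ := (hf y' hy').2
  have h2 : pos (y, k) = pos (y', k') := by rw [hk, hk', he]
  exact congrArg Prod.fst (hp h2)

end

open Classical in
/-- the bound for one instance -/
theorem inst_bound (hLB : StmLB) (hCore : StmCore) (hAsk : StmAsked) (hDT : StmDTr)
    (hNum : StmNum) (hLang : StmLang) (hPos : StmPos)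
    {n u t m s : ℕ} {as : List ℕ} (hn : 5 ≤ n) (hu : 8 * u ≤ n) (hsz : GoodSz n (t + 1) as)
    (hm : (t + 1) * (2 * m + 2) + 20 ≤ 2 ^ (2 * u)) (hs : 2048 ≤ 2 ^ s - 1) :
    ∃ μ : ℕ, (2 ^ s - 1) / 2048 ≤ μ ∧ μ ≤ 11 * (2 ^ s - 1) ∧
      ∀ (K : ℕ) (x y0 : List Bool) (P M : Alg), Inst (t + 1) n K μ s as x →
        16 * P.p.eval y0.length ≤ 2 ^ μ → ∀ A0 : Oracle,
        Ex unif (fun z : Fin (2 ^ μ) × Fin (2 ^ s) × Idx Unit (8 * n :: pw as) → Bool =>
          if (x ∈ lang (t + 1) (ovr (ps x μ s as (8 * n)) A0 z) ↔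
            Ans (ovr (ps x μ s as (8 * n)) A0 z) P M (t + 1) m y0) then (1 : ℝ) else 0) ≤
          1 - 1 / 2 ^ 15 := by
  obtain ⟨hβ1, hβ2⟩ := bet_bounds hLB hn hu hsz hm
  set β : ℝ := bet as (8 * n) with hβ
  obtain ⟨μ, hμ1, hμ2, hμ3⟩ := hNum β (2 ^ s - 1) hβ1 hβ2 hs
  refine ⟨μ, hμ1, hμ2, ?_⟩
  intro K x y0 P M hI hQ A0
  set pos := ps x μ s as (8 * n) with hposdef
  have hpi : Function.Injective pos := (hPos x μ s as (8 * n)).1
  -- currying
  rw [Ex_cur unif (G := Fin (2 ^ μ)) (K := Fin (2 ^ s) × Idx Unit (8 * n :: pw as))]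
  have h2s : 0 < 2 ^ s := by positivity
  set g0 : Fin (2 ^ s) := ⟨0, h2s⟩ with hg0
  set G : (Idx Unit (8 * n :: pw as) → Bool) → Prop := fun v => tv as (8 * n) v = true with hG
  set T : (Fin (2 ^ s) × Idx Unit (8 * n :: pw as) → Bool) → Prop := fun σ =>
    ∀ g, G (fun i => σ (g, i)) with hT
  set R : (Fin (2 ^ μ) → Fin (2 ^ s) × Idx Unit (8 * n :: pw as) → Bool) → Prop := fun Z =>
    Ans (OO pos A0 Z) P M (t + 1) m y0 with hR
  have hp : ∑ σ ∈ univ.filter (Mk g0 G), pwt unif σ = β ^ (2 ^ s - 1) := by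
    rw [mk_prob, Fintype.card_fin]
    congr 1
    rw [hβ]
    unfold bet
    refine Finset.sum_congr ?_ fun _ _ => rfl
    ext v
    simp only [Finset.mem_filter, hG]
  have hcore := hCore (Fin (2 ^ μ)) (Fin (2 ^ s) × Idx Unit (8 * n :: pw as) → Bool)
    (pwt unif) (fun σ => pwt_nonneg unif0 σ) (pwt_sum unif1) (Mk g0 G) T
    (fun σ h g _ => h g) R (fun y Z => Tch pos A0 P y0 y Z)
    (fun y Z σ => Tch_update hAsk hpi A0 P y0 y Z σ) ((P.p.eval y0.length : ℕ) : ℝ)
    (β ^ (2 ^ s - 1)) (1 / 2048) (fun Z => by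
      have := Tch_card hAsk hpi A0 P y0 Z
      exact_mod_cast this) hp (by norm_num) ?_
  · have hlang : ∀ Z : Fin (2 ^ μ) → Fin (2 ^ s) × Idx Unit (8 * n :: pw as) → Bool,
        (x ∈ lang (t + 1) (OO pos A0 Z) ↔ ∃ y, T (Z y)) := by
      intro Z
      rw [hLang t n K μ s as x _ hI hsz.1]
      refine exists_congr fun y => forall_congr' fun g => ?_
      have h1 : (fun i => OO pos A0 Z (ps x μ s as (8 * n) (y, g, i))) =
          fun i => Z y (g, i) := by
        funext i
        unfold OO
        exact ovr_pos hpi A0 _ (y, g, i)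
      rw [h1]
    have h3 := hμ3 ((P.p.eval y0.length : ℕ) : ℝ) (by exact_mod_cast hQ)
    refine le_trans (le_of_eq ?_) (hcore.trans ?_)
    · rw [Ex_eq_sum, Ex_eq_sum]
      refine Finset.sum_congr rfl fun Z _ => ?_
      congr 1
      refine ite_iff1 ?_
      show (x ∈ lang (t + 1) (OO pos A0 Z) ↔ Ans (OO pos A0 Z) P M (t + 1) m y0) ↔
        (R Z ↔ ∃ y, T (Z y))
      rw [hlang Z]
      exact ⟨fun h => h.symm, fun h => h.symm⟩
    · rw [Fintype.card_fin]
      push_cast
      have h4 : (1 : ℝ) / 2048 * β ^ (2 ^ s - 1) * (2 ^ μ * (1 - β ^ (2 ^ s - 1)) ^ (2 ^ μ - 1) -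
          ((P.p.eval y0.length : ℕ) : ℝ)) = 1 / 2048 * (β ^ (2 ^ s - 1) *
            (2 ^ μ * (1 - β ^ (2 ^ s - 1)) ^ (2 ^ μ - 1) - ((P.p.eval y0.length : ℕ) : ℝ))) := by ring
      rw [h4]
      norm_num at h3 ⊢
      linarith
  · -- the hardness for one block
    intro y Z hZ
    have h0 := hard_aux g0 G (fun σ => R (Function.update Z y σ)) (1 / 2048) ?_
    · rw [hp] at h0
      refine h0.trans (le_of_eq ?_)
      refine Finset.sum_congr rfl fun σ _ => ?_
      congr 1
      exact ite_iff1 Iff.rfl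
    intro X
    -- the formula
    set T0 : List Bool := (P.out (OO pos A0 Z) y0).getD [] with hT0
    set O : (Idx Unit (8 * n :: pw as) → Bool) → Oracle := fun v =>
      OO pos A0 (Function.update Z y (fun p => Function.update X g0 v p.1 p.2)) with hO
    set F : List Bool → (Idx Unit (8 * n :: pw as) → Bool) → Bool := fun w v =>
      decide (M.run (O v) (pairBits T0 (unpair w).2) (m + 1) [] = some [true]) with hF
    have hOq : ∀ q, (∃ b, ∀ v, O v q = b) ∨ ∃ i, ∀ v, O v q = v i := by
      intro q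
      by_cases hq : ∃ j, pos j = q
      · obtain ⟨⟨y', g, i⟩, rfl⟩ := hq
        have h1 : ∀ v, O v (pos (y', g, i)) =
            Function.update Z y (fun p => Function.update X g0 v p.1 p.2) y' (g, i) := by
          intro v
          rw [hO]
          unfold OO
          exact ovr_pos hpi A0 _ (y', g, i)
        by_cases hy : y' = y
        · subst hy
          by_cases hg : g = g0
          · subst hg
            refine Or.inr ⟨i, fun v => ?_⟩
            rw [h1, Function.update_self]
            show Function.update X g0 v g0 i = v i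
            rw [Function.update_self]
          · refine Or.inl ⟨X g i, fun v => ?_⟩
            rw [h1, Function.update_self]
            show Function.update X g0 v g i = X g i
            rw [Function.update_of_ne hg]
        · refine Or.inl ⟨Z y' (g, i), fun v => ?_⟩
          rw [h1, Function.update_of_ne hy]
      · refine Or.inl ⟨A0 q, fun v => ?_⟩
        rw [hO]
        unfold OO
        exact ovr_off _ _ _ hq
    have hm2 : m ≤ 2 ^ (2 * u) := by nlinarith
    have hFd : ∀ w : List Bool, DTr (2 ^ (2 * u)) (F w) := fun w =>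
      (hDT M (pairBits T0 (unpair w).2) m [] _ O hOq).mono hm2
    have hbound := hLB n u t m as hn hu hsz hm (GG m (t + 1) F) (fun w _ => hFd _)
    have hS : ∀ v, R (Function.update Z y (fun p => Function.update X g0 v p.1 p.2)) ↔
        QF m (GG m (t + 1) F) (t + 1) true [] v = true := by
      intro v
      rw [qf_alt m (t + 1) F v [] (t + 1) 0 true [] [] (by omega) rfl]
      have h1 := (run_update hAsk hpi A0 P y0 y Z hZ
        (fun p => Function.update X g0 v p.1 p.2)).1
      show Ans (O v) P M (t + 1) m y0 ↔ _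
      unfold Ans
      rw [show P.out (O v) y0 = P.out (OO pos A0 Z) y0 from h1, ← hT0]
      apply Alt_congr
      intro w _
      show _ ↔ decide (M.run (O v) (pairBits T0 (unpair (pairBits [] w)).2) (m + 1) [] =
        some [true]) = true
      rw [unpair_pairBits, decide_eq_true_eq]
    refine le_trans (le_of_eq ?_) hbound
    unfold agr
    rw [Ex_eq_sum]
    refine Finset.sum_congr rfl fun v _ => ?_
    congr 1
    refine ite_iff1 ?_
    show (R (Function.update Z y (fun p => Function.update X g0 v p.1 p.2)) ↔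
      tv as (8 * n) v = true) ↔ _
    rw [hS v]
    exact Bool.eq_iff_iff.symm

end Pool.Agent.W932.RO
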