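import Pool.Agent.W932.RO.Bound
import Pool.Agent.W932.RO.Defs2

/-! The W-hierarchy relative to a random oracle: the bound for one instance, for any language. -/

set_option autoImplicit false

namespace Pool.Agent.W932.RO

open Finset MeasureTheory Pool.Agent.NPC H568R2 Pool.Agent.H676
open Pool.Agent.H620R2.Gauge Pool.Agent.H591R3.PHG Pool.Agent.W911.AL

open Classical in
/-- the bound for one instance -/
theorem inst_bound2 (hLB : StmLB) (hCore : StmCore) (hAsk : StmAsked) (hDT : StmDTr)
    (hNum : StmNum) (hPos : StmPos)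
    {n u t m s : ℕ} {as : List ℕ} (hn : 5 ≤ n) (hu : 8 * u ≤ n) (hsz : GoodSz n (t + 1) as)
    (hm : (t + 1) * (2 * m + 2) + 20 ≤ 2 ^ (2 * u)) (hs : 2048 ≤ 2 ^ s - 1) :
    ∃ μ : ℕ, (2 ^ s - 1) / 2048 ≤ μ ∧ μ ≤ 11 * (2 ^ s - 1) ∧
      ∀ (mem : Oracle → Prop) (x y0 : List Bool) (P M : Alg),
        (∀ A, mem A ↔ ∃ y : Fin (2 ^ μ), ∀ g : Fin (2 ^ s),
          tv as (8 * n) (fun i => A (ps x μ s as (8 * n) (y, g, i))) = true) →
        16 * P.p.eval y0.length ≤ 2 ^ μ → ∀ A0 : Oracle,
        Ex unif (fun z : Fin (2 ^ μ) × Fin (2 ^ s) × Idx Unit (8 * n :: pw as) → Bool =>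
          if (mem (ovr (ps x μ s as (8 * n)) A0 z) ↔
            Ans (ovr (ps x μ s as (8 * n)) A0 z) P M (t + 1) m y0) then (1 : ℝ) else 0) ≤
          1 - 1 / 2 ^ 15 := by
  obtain ⟨hβ1, hβ2⟩ := bet_bounds hLB hn hu hsz hm
  set β : ℝ := bet as (8 * n) with hβ
  obtain ⟨μ, hμ1, hμ2, hμ3⟩ := hNum β (2 ^ s - 1) hβ1 hβ2 hs
  refine ⟨μ, hμ1, hμ2, ?_⟩
  intro mem x y0 P M hmem hQ A0
  set pos := ps x μ s as (8 * n) with hposdef
  have hpi : Function.Injective pos := (hPos x μ s as (8 * n)).1
  -- currying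
  rw [Ex_cur unif (G := Fin (2 ^ μ)) (K := Fin (2 ^ s) × Idx Unit (8 * n :: pw as))]
  have h2s : 0 < 2 ^ s := by positivity
  set g0 : Fin (2 ^ s) := ⟨0, h2s⟩ with hg0
  set G : (Idx Unit (8 * n :: pw as) → Bool) → Prop := fun v => tv as (8 * n) v = true with hG
  set T : (Fin (2 ^ s) × Idx Unit (8 * n :: pw as) → Bool) → Prop := fun σ =>
    ∀ g, G (fun i => σ (g, i)) with hT
  set R : (Fin (2 ^ μ) → Fin (2 ^ s) × Idx Unit (8 * n :: pw as) → Bool) → Prop := fun Z =>
    Ans (OO pos A0 Z) P M (t + 1) m y0 with hR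
  have hp : ∑ σ ∈ univ.filter (Mk g0 G), pwt unif σ = β ^ (2 ^ s - 1) := by
    rw [mk_prob, Fintype.card_fin]
    congr 1
    rw [hβ]
    unfold bet
    refine Finset.sum_congr ?_ fun _ _ => rfl
    ext v
    simp only [Finset.mem_filter, hG]
  have hcore := hCore (Fin (2 ^ μ)) (Fin (2 ^ s) × Idx Unit (8 * n :: pw as) → Bool)
    (pwt unif) (fun σ => pwt_nonneg unif0 σ) (pwt_sum unif1) (Mk g0 G) T
    (fun σ h g _ => h g) R (fun y Z => Tch pos A0 P y0 y Z)
    (fun y Z σ => Tch_update hAsk hpi A0 P y0 y Z σ) ((P.p.eval y0.length : ℕ) : ℝ)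
    (β ^ (2 ^ s - 1)) (1 / 2048) (fun Z => by
      have := Tch_card hAsk hpi A0 P y0 Z
      exact_mod_cast this) hp (by norm_num) ?_
  · have hlang : ∀ Z : Fin (2 ^ μ) → Fin (2 ^ s) × Idx Unit (8 * n :: pw as) → Bool,
        (mem (OO pos A0 Z) ↔ ∃ y, T (Z y)) := by
      intro Z
      rw [hmem]
      refine exists_congr fun y => forall_congr' fun g => ?_
      have h1 : (fun i => OO pos A0 Z (ps x μ s as (8 * n) (y, g, i))) =
          fun i => Z y (g, i) := by
        funext i
        unfold OO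
        exact ovr_pos hpi A0 _ (y, g, i)
      rw [h1]
    have h3 := hμ3 ((P.p.eval y0.length : ℕ) : ℝ) (by exact_mod_cast hQ)
    refine le_trans (le_of_eq ?_) (hcore.trans ?_)
    · rw [Ex_eq_sum, Ex_eq_sum]
      refine Finset.sum_congr rfl fun Z _ => ?_
      congr 1
      refine ite_iff1 ?_
      show (mem (OO pos A0 Z) ↔ Ans (OO pos A0 Z) P M (t + 1) m y0) ↔
        (R Z ↔ ∃ y, T (Z y))
      rw [hlang Z]
      exact ⟨fun h => h.symm, fun h => h.symm⟩
    · rw [Fintype.card_fin]
      push_cast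
      have h4 : (1 : ℝ) / 2048 * β ^ (2 ^ s - 1) * (2 ^ μ * (1 - β ^ (2 ^ s - 1)) ^ (2 ^ μ - 1) -
          ((P.p.eval y0.length : ℕ) : ℝ)) = 1 / 2048 * (β ^ (2 ^ s - 1) *
            (2 ^ μ * (1 - β ^ (2 ^ s - 1)) ^ (2 ^ μ - 1) - ((P.p.eval y0.length : ℕ) : ℝ))) := by ring
      rw [h4]
      norm_num at h3 ⊢
      linarith
  · -- the hardness for one block
    intro y Z hZ
    have h0 := hard_aux g0 G (fun σ => R (Function.update Z y σ)) (1 / 2048) ?_
    · rw [hp] at h0
      refine h0.trans (le_of_eq ?_)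
      refine Finset.sum_congr rfl fun σ _ => ?_
      congr 1
      exact ite_iff1 Iff.rfl
    intro X
    -- the formula
    set T0 : List Bool := (P.out (OO pos A0 Z) y0).getD [] with hT0
    set O : (Idx Unit (8 * n :: pw as) → Bool) → Oracle := fun v =>
      OO pos A0 (Function.update Z y (fun p => Function.update X g0 v p.1 p.2)) with hO
    set F : List Bool → (Idx Unit (8 * n :: pw as) → Bool) → Bool := fun w v =>
      decide (M.run (O v) (pairBits T0 (unpair w).2) (m + 1) [] = some [true]) with hF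
    have hOq : ∀ q, (∃ b, ∀ v, O v q = b) ∨ ∃ i, ∀ v, O v q = v i := by
      intro q
      by_cases hq : ∃ j, pos j = q
      · obtain ⟨⟨y', g, i⟩, rfl⟩ := hq
        have h1 : ∀ v, O v (pos (y', g, i)) =
            Function.update Z y (fun p => Function.update X g0 v p.1 p.2) y' (g, i) := by
          intro v
          rw [hO]
          unfold OO
          exact ovr_pos hpi A0 _ (y', g, i)
        by_cases hy : y' = y
        · subst hy
          by_cases hg : g = g0
          · subst hg
            refine Or.inr ⟨i, fun v => ?_⟩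
            rw [h1, Function.update_self]
            show Function.update X g0 v g0 i = v i
            rw [Function.update_self]
          · refine Or.inl ⟨X g i, fun v => ?_⟩
            rw [h1, Function.update_self]
            show Function.update X g0 v g i = X g i
            rw [Function.update_of_ne hg]
        · refine Or.inl ⟨Z y' (g, i), fun v => ?_⟩
          rw [h1, Function.update_of_ne hy]
      · refine Or.inl ⟨A0 q, fun v => ?_⟩
        rw [hO]
        unfold OO
        exact ovr_off _ _ _ hq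
    have hm2 : m ≤ 2 ^ (2 * u) := by nlinarith
    have hFd : ∀ w : List Bool, DTr (2 ^ (2 * u)) (F w) := fun w =>
      (hDT M (pairBits T0 (unpair w).2) m [] _ O hOq).mono hm2
    have hbound := hLB n u t m as hn hu hsz hm (GG m (t + 1) F) (fun w _ => hFd _)
    have hS : ∀ v, R (Function.update Z y (fun p => Function.update X g0 v p.1 p.2)) ↔
        QF m (GG m (t + 1) F) (t + 1) true [] v = true := by
      intro v
      rw [qf_alt m (t + 1) F v [] (t + 1) 0 true [] [] (by omega) rfl]
      have h1 := (run_update hAsk hpi A0 P y0 y Z hZ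
        (fun p => Function.update X g0 v p.1 p.2)).1
      show Ans (O v) P M (t + 1) m y0 ↔ _
      unfold Ans
      rw [show P.out (O v) y0 = P.out (OO pos A0 Z) y0 from h1, ← hT0]
      apply Alt_congr
      intro w _
      show _ ↔ decide (M.run (O v) (pairBits T0 (unpair (pairBits [] w)).2) (m + 1) [] =
        some [true]) = true
      rw [unpair_pairBits, decide_eq_true_eq]
    refine le_trans (le_of_eq ?_) hbound
    unfold agr
    rw [Ex_eq_sum]
    refine Finset.sum_congr rfl fun v _ => ?_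
    congr 1
    refine ite_iff1 ?_
    show (R (Function.update Z y (fun p => Function.update X g0 v p.1 p.2)) ↔
      tv as (8 * n) v = true) ↔ _
    rw [hS v]
    exact Bool.eq_iff_iff.symm

end Pool.Agent.W932.RO
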