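import Pool.Agent.W932.RO.Stm

/-! The W-hierarchy relative to a random oracle: currying, and the probability of the marker. -/

set_option autoImplicit false

namespace Pool.Agent.W932.RO

open Finset MeasureTheory Pool.Agent.NPC H568R2 Pool.Agent.H676
open Pool.Agent.H620R2.Gauge Pool.Agent.H591R3.PHG Pool.Agent.W911.AL

/-- the product weight -/
noncomputable def pwt {K A : Type} [Fintype K] (v : A → ℝ) (σ : K → A) : ℝ := ∏ k, v (σ k)

theorem pwt_nonneg {K A : Type} [Fintype K] {v : A → ℝ} (h : ∀ a, 0 ≤ v a) (σ : K → A) :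
    0 ≤ pwt v σ := Finset.prod_nonneg fun k _ => h _

theorem pwt_sum {K A : Type} [Fintype K] [DecidableEq K] [Fintype A] {v : A → ℝ}
    (h : ∑ a, v a = 1) : ∑ σ : K → A, pwt v σ = 1 := by
  have h1 := Ex_const (I := K) h 1
  unfold Ex at h1
  simpa [pwt] using h1

theorem Ex_eq_sum {K A : Type} [Fintype K] [DecidableEq K] [Fintype A] (v : A → ℝ)
    (F : (K → A) → ℝ) : Ex v F = ∑ σ : K → A, pwt v σ * F σ := rfl

theorem Ex_cur {G K A : Type} [Fintype G] [DecidableEq G] [Fintype K] [DecidableEq K] [Fintype A]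
    (v : A → ℝ) (F : (G × K → A) → ℝ) :
    Ex v F = Ex (pwt v) (fun X : G → K → A => F (fun p => X p.1 p.2)) := by
  classical
  unfold Ex pwt
  rw [← (Equiv.curry G K A).symm.sum_comp]
  refine Finset.sum_congr rfl fun σ _ => ?_
  rw [Fintype.prod_prod_type]
  rfl

theorem unif0 (a : Bool) : 0 ≤ unif a := by unfold unif; norm_num

theorem unif1 : ∑ a, unif a = 1 := by
  rw [Fintype.sum_bool]; unfold unif; norm_num

section hard

variable {Γ K : Type} [Fintype Γ] [DecidableEq Γ] [Fintype K] [DecidableEq K]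

/-- all the groups other than `g0` have the property `G` -/
def Mk (g0 : Γ) (G : (K → Bool) → Prop) (σ : Γ × K → Bool) : Prop :=
  ∀ g, g ≠ g0 → G (fun i => σ (g, i))

open Classical in
theorem mk_prob (g0 : Γ) (G : (K → Bool) → Prop) :
    ∑ σ ∈ univ.filter (Mk g0 G), pwt unif σ =
      (∑ v ∈ univ.filter G, pwt unif v) ^ (Fintype.card Γ - 1) := by
  have h1 : ∑ σ ∈ univ.filter (Mk g0 G), pwt unif σ =
      Ex unif (fun σ : Γ × K → Bool => if Mk g0 G σ then (1 : ℝ) else 0) := by
    rw [Ex_eq_sum, Finset.sum_filter]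
    refine Finset.sum_congr rfl fun σ _ => ?_
    split_ifs <;> simp
  rw [h1, Ex_cur]
  have h2 := Ex_indep (I := Γ) (pwt_sum (K := K) unif1) G (univ.erase g0) (fun _ => 1)
    (fun _ _ _ _ => rfl)
  rw [Ex_const (pwt_sum unif1), mul_one, Finset.card_erase_of_mem (Finset.mem_univ _),
    Finset.card_univ] at h2
  rw [← h2]
  congr 1
  funext X
  rw [one_mul]
  by_cases h : Mk g0 G (fun p : Γ × K => X p.1 p.2)
  · rw [if_pos h, if_pos (fun i hi => h i (Finset.ne_of_mem_erase hi))]
  · rw [if_neg h, if_neg (fun h' => h fun i hi => h' i (Finset.mem_erase.2 ⟨hi, Finset.mem_univ _⟩))]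

open Classical in
theorem hard_aux (g0 : Γ) (G : (K → Bool) → Prop) (S : (Γ × K → Bool) → Prop) (ε : ℝ)
    (h : ∀ X : Γ → K → Bool, ∑ v, pwt unif v *
      (if (S (fun p => Function.update X g0 v p.1 p.2) ↔ G v) then (1 : ℝ) else 0) ≤ 1 - ε) :
    ε * (∑ σ ∈ univ.filter (Mk g0 G), pwt unif σ) ≤
      ∑ σ : Γ × K → Bool, pwt unif σ *
        (if Mk g0 G σ ∧ ¬ (S σ ↔ ∀ g, G (fun i => σ (g, i))) then (1 : ℝ) else 0) := by
  have h1 : ∑ σ ∈ univ.filter (Mk g0 G), pwt unif σ =
      Ex (pwt unif) (fun X : Γ → K → Bool =>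
        if Mk g0 G (fun p : Γ × K => X p.1 p.2) then (1 : ℝ) else 0) := by
    rw [← Ex_cur unif (fun σ : Γ × K → Bool => if Mk g0 G σ then (1 : ℝ) else 0), Ex_eq_sum,
      Finset.sum_filter]
    refine Finset.sum_congr rfl fun σ _ => ?_
    split_ifs <;> simp
  rw [h1, ← Ex_smul, ← Ex_eq_sum unif (fun σ : Γ × K → Bool =>
      if Mk g0 G σ ∧ ¬ (S σ ↔ ∀ g, G (fun i => σ (g, i))) then (1 : ℝ) else 0), Ex_cur,
    Ex_resample (pwt_sum unif1) (fun X : Γ → K → Bool =>
      if Mk g0 G (fun p : Γ × K => X p.1 p.2) ∧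
        ¬ (S (fun p : Γ × K => X p.1 p.2) ↔ ∀ g, G (fun i => X g i)) then (1 : ℝ) else 0) g0]
  refine Ex_mono (fun v => pwt_nonneg unif0 v) fun X => ?_
  have hmk : ∀ v : K → Bool, Mk g0 G (fun p : Γ × K => Function.update X g0 v p.1 p.2) ↔
      Mk g0 G (fun p : Γ × K => X p.1 p.2) := by
    intro v
    refine forall_congr' fun g => forall_congr' fun hg => ?_
    show G (fun i => Function.update X g0 v g i) ↔ G (fun i => X g i)
    rw [Function.update_of_ne hg]
  by_cases hX : Mk g0 G (fun p : Γ × K => X p.1 p.2)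
  · rw [if_pos hX, mul_one]
    have h2 : ∀ v : K → Bool, (∀ g, G (fun i => Function.update X g0 v g i)) ↔ G v := by
      intro v
      constructor
      · intro h3
        have h4 := h3 g0
        rwa [Function.update_self] at h4
      · intro h3 g
        by_cases hg : g = g0
        · subst hg
          rw [Function.update_self]
          exact h3
        · rw [Function.update_of_ne hg]
          exact hX g hg
    have h3 := h X
    have h4 : ∑ v, pwt unif v * (if Mk g0 G (fun p : Γ × K => Function.update X g0 v p.1 p.2) ∧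
        ¬ (S (fun p : Γ × K => Function.update X g0 v p.1 p.2) ↔
          ∀ g, G (fun i => Function.update X g0 v g i)) then (1 : ℝ) else 0) =
        1 - ∑ v, pwt unif v *
          (if (S (fun p => Function.update X g0 v p.1 p.2) ↔ G v) then (1 : ℝ) else 0) := by
      have h6 : ∑ v : K → Bool, pwt unif v = 1 := pwt_sum unif1
      rw [← h6, ← Finset.sum_sub_distrib]
      refine Finset.sum_congr rfl fun v _ => ?_
      rw [h6]
      by_cases h5 : (S (fun p => Function.update X g0 v p.1 p.2) ↔ G v)
      · rw [if_pos h5, if_neg (fun h6 => h6.2 (h5.trans (h2 v).symm))]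
        ring
      · rw [if_neg h5, if_pos ⟨(hmk v).2 hX, fun h6 => h5 (h6.trans (h2 v))⟩]
        ring
    refine le_trans ?_ (le_of_eq h4.symm)
    linarith
  · rw [if_neg hX, mul_zero]
    exact Finset.sum_nonneg fun v _ => mul_nonneg (pwt_nonneg unif0 v) (by split_ifs <;> norm_num)

end hard

/-- the probability that the value of a tree is `true` -/
noncomputable def bet (as : List ℕ) (w : ℕ) : ℝ :=
  ∑ v ∈ univ.filter (fun v : Idx Unit (w :: pw as) → Bool => tv as w v = true), pwt unif v

open Classical in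
theorem QF_const {I : Type} (m : ℕ) (c : Bool) : ∀ (k : ℕ) (b : Bool) (y : List Bool)
    (z : I → Bool), QF m (fun _ _ => c) k b y z = c := by
  intro k
  induction k with
  | zero => intro b y z; cases b <;> rfl
  | succ k ih =>
    intro b y z
    have hex : ∃ w : List Bool, w.length ≤ m := ⟨[], by simp⟩
    cases b with
    | true =>
      show decide (∃ w : List Bool, w.length ≤ m ∧
        QF m (fun _ _ => c) k false (pairBits w y) z = true) = c
      cases c with
      | true => exact decide_eq_true ⟨[], by simp, ih _ _ _⟩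
      | false =>
        refine decide_eq_false ?_
        rintro ⟨w, _, hw⟩
        rw [ih] at hw
        exact Bool.noConfusion hw
    | false =>
      show decide (∀ w : List Bool, w.length ≤ m →
        QF m (fun _ _ => c) k true (pairBits w y) z = true) = c
      cases c with
      | true => exact decide_eq_true fun w _ => ih _ _ _
      | false =>
        refine decide_eq_false fun h => ?_
        have hw := h [] (by simp)
        rw [ih] at hw
        exact Bool.noConfusion hw

theorem bet_bounds (hLB : StmLB) {n u t m : ℕ} {as : List ℕ} (hn : 5 ≤ n) (hu : 8 * u ≤ n)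
    (hsz : GoodSz n (t + 1) as) (hm : (t + 1) * (2 * m + 2) + 20 ≤ 2 ^ (2 * u)) :
    1 / 2048 ≤ bet as (8 * n) ∧ bet as (8 * n) ≤ 1 - 1 / 2048 := by
  have key : ∀ c : Bool, agr as (8 * n) (fun _ => c) ≤ 1 - 1 / 2048 := by
    intro c
    have h1 := hLB n u t m as hn hu hsz hm (fun _ _ => c) (fun y _ => DTr.const ⟨c, fun _ => rfl⟩)
    have h2 : QF m (fun (_ : List Bool) (_ : Idx Unit (8 * n :: pw as) → Bool) => c) (t + 1) true
        [] = fun _ => c := funext fun z => QF_const m c _ _ _ z
    rw [h2] at h1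
    exact h1
  have h1 : agr as (8 * n) (fun _ => true) = bet as (8 * n) := by
    unfold agr bet
    rw [Ex_eq_sum, Finset.sum_filter]
    refine Finset.sum_congr rfl fun v _ => ?_
    cases h : tv as (8 * n) v <;> simp
  have h2 : agr as (8 * n) (fun _ => false) = 1 - bet as (8 * n) := by
    unfold agr bet
    have h5 : ∑ v : Idx Unit (8 * n :: pw as) → Bool, pwt unif v = 1 := pwt_sum unif1
    rw [Ex_eq_sum, Finset.sum_filter, ← h5, ← Finset.sum_sub_distrib]
    refine Finset.sum_congr rfl fun v _ => ?_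
    rw [h5]
    cases h : tv as (8 * n) v <;> simp
  have h3 := key true
  have h4 := key false
  rw [h1] at h3
  rw [h2] at h4
  exact ⟨by linarith, h3⟩

end Pool.Agent.W932.RO
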