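import Pool.Agent.W911.AL.Easy

/-!
# The W-hierarchy relative to a random oracle: definitions
-/

set_option autoImplicit false

namespace Pool.Agent.W932.RO

open Finset MeasureTheory Pool.Agent.NPC H568R2 Pool.Agent.H676
open Pool.Agent.H620R2.Gauge Pool.Agent.H591R3.PHG Pool.Agent.W911.AL

/-- The number of binary digits of the length of `x`. -/
def lg (x : List Bool) : ℕ := Nat.size x.length

/-- The natural number `f x` is computable in polynomial time, in unary notation. -/
def PolyNat (f : List Bool → ℕ) : Prop := PolyTime (fun x => List.replicate (f x) true)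

/-- Alternating quantifiers over the bit strings whose lengths are given by the list, the first one
existential if the bit is `true` and universal if it is `false`; the quantified strings are
appended, one after the other, to the string `q`, and the resulting string has the property
`R`. -/
def Blocks (R : List Bool → Prop) : List ℕ → Bool → List Bool → Prop
  | [], _, q => R q
  | m :: ms, true, q => ∃ w : List Bool, w.length = m ∧ Blocks R ms false (q ++ w)
  | m :: ms, false, q => ∀ w : List Bool, w.length = m → Blocks R ms true (q ++ w)

/-- The small class: `x ∈ Q` if and only if `∃ w₁ ∀ w₂ ∃ w₃ ⋯` (`t` quantifiers over bit strings)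
the word of `v x` bits of the oracle at the address `x w₁ w₂ ⋯` is zero (or is not zero, if `e` is
`false`). The first string has at most `κ x * lg x` bits, the others and the word have at most
`lg x` bits. -/
def Small (A : Oracle) (t : ℕ) (κ : List Bool → ℕ) (Q : Set (List Bool)) : Prop :=
  ∃ (b : ℕ → List Bool → ℕ) (v : List Bool → ℕ) (e : Bool),
    (∀ i, PolyNat (b i)) ∧ PolyNat v ∧ (∀ x, b 0 x ≤ κ x * lg x) ∧ (∀ i x, b (i + 1) x ≤ lg x) ∧
    (∀ x, v x ≤ lg x) ∧
    ∀ x, x ∈ Q ↔ Blocks (fun q => bitv A (v x) q = e) ((List.range t).map fun i => b i x) true x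

/-- The big class: the machine first computes a string from `x` and from a string `α (κ x)`
(arbitrary advice depending on the parameter only) in polynomial time, relative to `A`; then it
guesses, in `t` alternating blocks, `t` strings of `h (κ x) * lg x` bits, and then the machine `M`
asks at most `h (κ x) * lg x` more questions to the oracle. The functions `α` and `h` are
arbitrary. -/
def Big (A : Oracle) (t : ℕ) (κ : List Bool → ℕ) (Q : Set (List Bool)) : Prop :=
  ∃ (P : List Bool → List Bool) (M : Alg) (α : ℕ → List Bool) (h : ℕ → ℕ), IsFP A P ∧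
    ∀ x, x ∈ Q ↔ Alt (h (κ x) * lg x) (fun u =>
      M.run A (pairBits (P (pairBits x (α (κ x)))) u) (h (κ x) * lg x + 1) [] = some [true])
      t true []

/-! ### The language -/

/-- the rest of the input after `i` numbers have been read -/
def rst (i : ℕ) (x : List Bool) : List Bool := (fun y => (unpair y).2)^[i] x

/-- the number with index `i` in the input -/
def num (i : ℕ) (x : List Bool) : ℕ := (unpair (rst i x)).1.length

/-- the parameter -/
def kap (x : List Bool) : ℕ := num 0 x

/-- the number of bits of the word -/
def wl (x : List Bool) : ℕ := min (num 1 x) (lg x)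

/-- the lengths of the quantified strings -/
def bl : ℕ → List Bool → ℕ
  | 0, x => min (num 2 x) (kap x * lg x)
  | i + 1, x => min (num (i + 3) x) (lg x)

/-- parity -/
def par : ℕ → Bool
  | 0 => true
  | t + 1 => !(par t)

/-- the language for the level `t + 1` -/
def lang (t : ℕ) (A : Oracle) : Set (List Bool) :=
  {x | Blocks (fun q => bitv A (wl x) q = par t) ((List.range (t + 1)).map fun i => bl i x) true x}

/-! ### The objects of the proof -/

/-- the oracle `A`, with the bits at the positions `pos j` replaced by `z j` -/
noncomputable def ovr {J : Type} (pos : J → List Bool) (A : Oracle) (z : J → Bool) : Oracle :=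
  open Classical in fun q => if h : ∃ j, pos j = q then z h.choose else A q

/-- the questions asked within `n` rounds after the answers `a` -/
def asked (M : Alg) (A : Oracle) (x : List Bool) : ℕ → List Bool → List (List Bool)
  | 0, _ => []
  | n + 1, a =>
    match M.D (pairBits x a) with
    | [] => []
    | true :: _ => []
    | false :: q => q :: asked M A x n (a ++ [A q])

/-- the answer of the machine of the big class -/
def Ans (A : Oracle) (P M : Alg) (t m : ℕ) (y : List Bool) : Prop :=
  Alt m (fun u => M.run A (pairBits ((P.out A y).getD []) u) (m + 1) [] = some [true]) t true []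

/-- the leaves of one tree: the strings, from the string of the root -/
def lf (as : List ℕ) (w : ℕ) (r : List Bool) (i : Idx Unit (w :: pw as)) : List Bool :=
  addr (fun _ : Unit => r) as i.1 ++ List.replicate i.2.val true

/-- the value of one tree -/
def tv (as : List ℕ) (w : ℕ) (v : Idx Unit (w :: pw as) → Bool) : Bool := Tr (w :: pw as) v ()

/-- the probability that two Boolean functions on the leaves of one tree agree -/
noncomputable def agr (as : List ℕ) (w : ℕ) (f : (Idx Unit (w :: pw as) → Bool) → Bool) : ℝ :=
  Ex unif (fun z : Idx Unit (w :: pw as) → Bool => if f z = tv as w z then (1 : ℝ) else 0)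

/-- the positions: the leaves of the tree for the string `x`, the number `y` and the number `g` -/
def ps (x : List Bool) (μ s : ℕ) (as : List ℕ) (w : ℕ)
    (j : Fin (2 ^ μ) × Fin (2 ^ s) × Idx Unit (w :: pw as)) : List Bool :=
  lf as w (x ++ bitsOf μ j.1.val ++ bitsOf s j.2.1.val) j.2.2

/-- the sizes `as` of the levels are good -/
def GoodSz (n t : ℕ) (as : List ℕ) : Prop :=
  as.length = t ∧ (∀ a ∈ as, a ≤ 64 * n) ∧
    ∀ D : ℕ, 16 * D ≤ 2 ^ (4 * n) →
      Ex (nxt (1 / 2) (1 / 2 ^ (4 * n)) 0 (8 * n) (8 * n) law0)
        (Wt (X := Unit) (1 / 2 ^ (4 * n)) (1 / 2 ^ (2 * n)) (8 * n * 2 ^ (4 * n)) (1 / 256) D 1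
          (pw as)) ≤ 1 / 2

/-- An instance with good parameters. -/
structure Inst (t n K μ s : ℕ) (as : List ℕ) (x : List Bool) : Prop where
  kap : kap x = K
  wl : wl x = 8 * n
  bl0 : bl 0 x = μ
  bl : ∀ i, i < t → bl (i + 1) x = (as.getD (t - 1 - i) 0) + if i = 0 then s else 0

end Pool.Agent.W932.RO
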