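import Pool.Agent.W932.RO.Bound
import Pool.Agent.W911.AL.Low

/-! The W-hierarchy relative to a random oracle: almost every oracle. -/

set_option autoImplicit false

namespace Pool.Agent.W932.RO

open Finset MeasureTheory Filter Topology Pool.Agent.NPC H568R2 Pool.Agent.H676
open Pool.Agent.H620R2.Gauge Pool.Agent.H591R3.PHG Pool.Agent.W911.AL
open Pool.Agent.W911.IB (LocalAt)

/-- the oracles for which the machine is right on the instance `x` -/
def Ev (t : ℕ) (P M : Alg) (m : ℕ) (y0 x : List Bool) : Set Oracle :=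
  {A | x ∈ lang (t + 1) A ↔ Ans A P M (t + 1) m y0}

theorem ev_local (hLoc : StmLoc) (hLang : StmLang) {t n K μ s : ℕ} {as : List ℕ}
    {x : List Bool} (hI : Inst (t + 1) n K μ s as x) (hlen : as.length = t + 1) (P M : Alg)
    (m : ℕ) (y0 : List Bool) : ∃ ℓ', LocalAt ℓ' (Ev t P M m y0 x) := by
  obtain ⟨ℓ1, h1⟩ := hLoc P M (t + 1) m y0
  set ℓ2 : ℕ := (univ : Finset (Fin (2 ^ μ) × Fin (2 ^ s) × Idx Unit (8 * n :: pw as))).sup
    (fun j => (ps x μ s as (8 * n) j).length) with hℓ2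
  refine ⟨max ℓ1 ℓ2, fun A A' hA => ?_⟩
  have e1 : Ans A P M (t + 1) m y0 ↔ Ans A' P M (t + 1) m y0 :=
    h1 A A' fun w hw => hA w (hw.trans (le_max_left _ _))
  have e2 : x ∈ lang (t + 1) A ↔ x ∈ lang (t + 1) A' := by
    rw [hLang t n K μ s as x A hI hlen, hLang t n K μ s as x A' hI hlen]
    have h3 : ∀ j, A (ps x μ s as (8 * n) j) = A' (ps x μ s as (8 * n) j) := by
      intro j
      apply hA
      refine le_trans ?_ (le_max_right _ _)
      exact Finset.le_sup (f := fun j => (ps x μ s as (8 * n) j).length) (Finset.mem_univ j)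
    simp only [h3]
  show (x ∈ lang (t + 1) A ↔ Ans A P M (t + 1) m y0) ↔
    (x ∈ lang (t + 1) A' ↔ Ans A' P M (t + 1) m y0)
  rw [e1, e2]

/-- a linear function is smaller than an exponential one -/
theorem lin_exp (c : ℕ) : ∀ᶠ n : ℕ in atTop, c * n + c ≤ 2 ^ (n / 8) := by
  have h1 := poly_le_exp (Polynomial.C c * Polynomial.X + Polynomial.C c)
  filter_upwards [h1] with n hn
  simpa using hn

theorem sum_le {as : List ℕ} {b : ℕ} (h : ∀ a ∈ as, a ≤ b) : as.sum ≤ as.length * b := by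
  have := List.sum_le_card_nsmul as b h
  simpa using this

/-- the parameter is chosen -/
def KK (d : ℕ) : ℕ := 22 * 2048 * 67 * (d + 1)

theorem step (hLB : StmLB) (hSZ : StmSZ) (hCore : StmCore) (hMeas : StmMeas) (hAsk : StmAsked)
    (hDT : StmDTr) (hLoc : StmLoc) (hNum : StmNum) (hLang : StmLang) (hInst : StmInst)
    (hPos : StmPos) (t : ℕ) (P M : Alg) : ∃ K : ℕ, ∀ (α : List Bool) (hK ℓ : ℕ),
      ∃ x, kap x = K ∧ ∃ ℓ', LocalAt ℓ' (Ev t P M (hK * lg x) (pairBits x α) x) ∧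
        ∀ G, LocalAt ℓ G → fair (G ∩ Ev t P M (hK * lg x) (pairBits x α) x) ≤
          ENNReal.ofReal (1 - 1 / 2 ^ 15) * fair G := by
  classical
  obtain ⟨d, hd⟩ := poly_le_pow P.p
  obtain ⟨L0, hL0⟩ := eventually_atTop.1 hd
  refine ⟨KK d, fun α hK ℓ => ?_⟩
  -- the size
  obtain ⟨n, hn5, hnL, hnℓ, hnα, hc1, hc2, hc3⟩ : ∃ n : ℕ, 5 ≤ n ∧ L0 ≤ n ∧ ℓ ≤ n ∧
      α.length + 1 ≤ n ∧
      ((t + 1) * (130 * hK + 2) + 20) * n + ((t + 1) * (130 * hK + 2) + 20) ≤ 2 ^ (n / 8) ∧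
      (2048 * 67 * (d + 1)) * n + (2048 * 67 * (d + 1)) ≤ 2 ^ (n / 8) ∧
      (4 * (2 * KK d + 64 * (t + 1) + t + 100)) * n + (4 * (2 * KK d + 64 * (t + 1) + t + 100)) ≤
        2 ^ (n / 8) := by
    have hev := ((((((eventually_ge_atTop 5).and (eventually_ge_atTop L0)).and
      (eventually_ge_atTop ℓ)).and (eventually_ge_atTop (α.length + 1))).and
      (lin_exp ((t + 1) * (130 * hK + 2) + 20))).and (lin_exp (2048 * 67 * (d + 1)))).and
      (lin_exp (4 * (2 * KK d + 64 * (t + 1) + t + 100)))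
    obtain ⟨n, hn⟩ := hev.exists
    exact ⟨n, hn.1.1.1.1.1.1, hn.1.1.1.1.1.2, hn.1.1.1.1.2, hn.1.1.1.2, hn.1.1.2, hn.1.2, hn.2⟩
  set u : ℕ := n / 8 with hu
  have hun : 8 * u ≤ n := Nat.mul_div_le n 8
  set c : ℕ := 2048 * 67 * (d + 1) * n with hc
  set s : ℕ := Nat.size c with hsdef
  have hcs : c < 2 ^ s := Nat.lt_size_self c
  have hcpos : 2048 * 67 ≤ c := by
    rw [hc]
    nlinarith [Nat.zero_le (d * n)]
  have hs1 : 1 ≤ s := by
    by_contra h
    have h0 : s = 0 := by omega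
    rw [h0] at hcs
    omega
  have hcs2 : 2 ^ s ≤ 2 * c := by
    have h1 : 2 ^ (s - 1) ≤ c := Nat.lt_size.1 (by omega)
    calc 2 ^ s = 2 * 2 ^ (s - 1) := by
          rw [← pow_succ']; congr 1; omega
      _ ≤ 2 * c := by omega
  have h2u : 2 ^ u ≤ 2 ^ n := Nat.pow_le_pow_right (by norm_num) (by omega)
  have hsn : s ≤ n := Nat.size_le.2 (by omega)
  set m : ℕ := hK * (65 * n) with hm
  have hmm : (t + 1) * (2 * m + 2) + 20 ≤ 2 ^ (2 * u) := by
    have h1 : 2 ^ u ≤ 2 ^ (2 * u) := Nat.pow_le_pow_right (by norm_num) (by omega)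
    refine le_trans ?_ (hc1.trans h1)
    rw [hm]
    have h2 : (t + 1) * (2 * (hK * (65 * n)) + 2) = (t + 1) * (130 * hK) * n + (t + 1) * 2 := by
      ring
    rw [h2]
    have h3 : (t + 1) * (130 * hK) * n ≤ ((t + 1) * (130 * hK + 2) + 20) * n := by
      apply Nat.mul_le_mul_right
      nlinarith
    have h4 : (t + 1) * 2 + 20 ≤ (t + 1) * (130 * hK + 2) + 20 := by
      nlinarith [Nat.zero_le ((t + 1) * hK)]
    omega
  obtain ⟨as, has⟩ := hSZ n t hn5
  obtain ⟨μ, hμ1, hμ2, hμ3⟩ := inst_bound hLB hCore hAsk hDT hNum hLang hPos hn5 hun has hmm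
    (s := s) (Nat.le_sub_one_of_lt
      ((show 2048 ≤ c from le_trans (by norm_num) hcpos).trans_lt hcs))
  have hKd : 22 * c = KK d * n := by rw [hc, KK]; ring
  have hμK : μ ≤ KK d * n := by
    rw [← hKd]
    omega
  have hμ4 : 67 * (d + 1) * n ≤ μ := by
    refine le_trans ?_ hμ1
    rw [Nat.le_div_iff_mul_le (by norm_num)]
    have : 67 * (d + 1) * n * 2048 = c := by rw [hc]; ring
    omega
  have hsum : as.sum ≤ (t + 1) * (64 * n) := by
    have := sum_le has.2.1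
    rwa [has.1] at this
  have h65 : 2 ^ (n / 8) < 2 ^ (65 * n - 1) := Nat.pow_lt_pow_right (by norm_num) (by omega)
  obtain ⟨x, hI, hlg, hxl⟩ := hInst t n (KK d) μ s as has.1 has.2.1 hsn (by
      refine hμK.trans ?_
      apply Nat.mul_le_mul_left
      omega) (by
      refine lt_of_le_of_lt ?_ h65
      refine le_trans ?_ hc3
      have h1 : KK d * n ≤ KK d * n := le_rfl
      have h2 : (t + 1) * (64 * n) = 64 * (t + 1) * n := by ring
      have h3 : KK d ≤ KK d * n := Nat.le_mul_of_pos_right _ (by omega)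
      have h4 : t ≤ t * n := Nat.le_mul_of_pos_right _ (by omega)
      have h5 : (4 * (2 * KK d + 64 * (t + 1) + t + 100)) * n = 8 * (KK d * n) +
        4 * (64 * (t + 1) * n) + 4 * (t * n) + 400 * n := by ring
      rw [h5]
      omega)
  refine ⟨x, hI.kap, ?_⟩
  rw [hlg]
  obtain ⟨ℓ', hℓ'⟩ := ev_local hLoc hLang hI has.1 P M (hK * (65 * n)) (pairBits x α)
  refine ⟨ℓ', hℓ', fun G hG => ?_⟩
  have hnx : n ≤ x.length := by
    rw [hxl]
    have h1 : n < 2 ^ n := Nat.lt_two_pow_self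
    have h2 : 2 ^ n ≤ 2 ^ (65 * n - 1) := Nat.pow_le_pow_right (by norm_num) (by omega)
    omega
  refine hMeas _ (ps x μ s as (8 * n)) (hPos x μ s as (8 * n)).1 ℓ ℓ' (fun j => ?_) G _ hG hℓ'
    (1 - 1 / 2 ^ 15) (by norm_num) fun A0 => ?_
  · have h1 := (hPos x μ s as (8 * n)).2 j
    omega
  · have hy0 : (pairBits x α).length ≤ 2 ^ (65 * n + 1) := by
      rw [length_pairBits]
      have h1 : 2 ^ (65 * n + 1) = 4 * x.length := by
        rw [hxl, show 65 * n + 1 = (65 * n - 1) + 2 by omega, pow_add]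
        ring
      omega
    have hq : 16 * P.p.eval (pairBits x α).length ≤ 2 ^ μ := by
      have h1 : P.p.eval (pairBits x α).length ≤ (pairBits x α).length ^ d := by
        apply hL0
        rw [length_pairBits]
        omega
      calc 16 * P.p.eval (pairBits x α).length ≤ 2 ^ 4 * (2 ^ (65 * n + 1)) ^ d :=
            Nat.mul_le_mul (by norm_num) (h1.trans (Nat.pow_le_pow_left hy0 d))
        _ = 2 ^ (4 + (65 * n + 1) * d) := by rw [pow_add 2 4, ← pow_mul 2 (65 * n + 1) d]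
        _ ≤ 2 ^ μ := by
          apply Nat.pow_le_pow_right (by norm_num)
          refine le_trans ?_ hμ4
          nlinarith [Nat.zero_le (n * d)]
    have h1 := hμ3 (KK d) x (pairBits x α) P M hI hq A0
    refine le_trans (le_of_eq ?_) h1
    rw [Ex_eq_sum, Ex_eq_sum]
    refine Finset.sum_congr rfl fun z _ => ?_
    congr 1
    exact ite_iff1 Iff.rfl

theorem final (hLB : StmLB) (hSZ : StmSZ) (hCore : StmCore) (hMeas : StmMeas) (hNull : StmNull)
    (hAsk : StmAsked) (hDT : StmDTr) (hLoc : StmLoc) (hNum : StmNum) (hLang : StmLang)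
    (hInst : StmInst) (hPos : StmPos) :
    ∀ᵐ A ∂fair, ∀ t : ℕ, ¬ Big A (t + 1) kap (lang (t + 1) A) := by
  have hst := step hLB hSZ hCore hMeas hAsk hDT hLoc hNum hLang hInst hPos
  choose K hKs using hst
  have hae : ∀ᵐ A ∂fair, ∀ (t : ℕ) (P M : Alg) (α : List Bool) (hK : ℕ),
      ¬ ∀ x, kap x = K t P M → A ∈ Ev t P M (hK * lg x) (pairBits x α) x := by
    simp only [ae_all_iff]
    intro t P M α hK
    have h0 : fair {A | ∀ x, kap x = K t P M → A ∈ Ev t P M (hK * lg x) (pairBits x α) x} = 0 := by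
      refine hNull _ (1 - 1 / 2 ^ 15) (by norm_num) (by norm_num) fun ℓ => ?_
      obtain ⟨x, hx, ℓ', h1, h2⟩ := hKs t P M α hK ℓ
      exact ⟨_, ℓ', fun A hA => hA x hx, h1, h2⟩
    rw [ae_iff]
    simpa using h0
  filter_upwards [hae] with A hA t hbig
  obtain ⟨P, M, α, h, ⟨MP, hMP⟩, hx⟩ := hbig
  refine hA t MP M (α (K t MP M)) (h (K t MP M)) fun x hk => ?_
  show x ∈ lang (t + 1) A ↔ Ans A MP M (t + 1) (h (K t MP M) * lg x)
    (pairBits x (α (K t MP M)))
  rw [hx x, hk]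
  unfold Ans
  rw [hMP]
  rfl

end Pool.Agent.W932.RO
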