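import Pool.Agent.W932.RO.Bound2
import Pool.Agent.W932.RO.Fin

/-! Weighted satisfiability of formulas relative to a random oracle: almost every oracle. -/

set_option autoImplicit false

namespace Pool.Agent.W932.RO

open Finset MeasureTheory Filter Topology Pool.Agent.NPC H568R2 Pool.Agent.H676
open Pool.Agent.H620R2.Gauge Pool.Agent.H591R3.PHG Pool.Agent.W911.AL
open Pool.Agent.W911.IB (LocalAt)

/-- the oracles for which the machine is right on the instance `x` -/
def EvS (t : ℕ) (P M : Alg) (m : ℕ) (y0 x : List Bool) : Set Oracle :=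
  {A | x ∈ langS A ↔ Ans A P M (t + 1) m y0}

theorem evS_local (hLoc : StmLoc) (hLang : StmLangS) {t n K μ s : ℕ} {as : List ℕ}
    {x : List Bool} (hI : InstS n K μ s as x) (hlen : as.length = t + 1) (P M : Alg)
    (m : ℕ) (y0 : List Bool) : ∃ ℓ', LocalAt ℓ' (EvS t P M m y0 x) := by
  obtain ⟨ℓ1, h1⟩ := hLoc P M (t + 1) m y0
  set ℓ2 : ℕ := (univ : Finset (Fin (2 ^ μ) × Fin (2 ^ s) × Idx Unit (8 * n :: pw as))).sup
    (fun j => (ps x μ s as (8 * n) j).length) with hℓ2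
  refine ⟨max ℓ1 ℓ2, fun A A' hA => ?_⟩
  have e1 : Ans A P M (t + 1) m y0 ↔ Ans A' P M (t + 1) m y0 :=
    h1 A A' fun w hw => hA w (hw.trans (le_max_left _ _))
  have e2 : x ∈ langS A ↔ x ∈ langS A' := by
    rw [hLang t n K μ s as x A hI hlen, hLang t n K μ s as x A' hI hlen]
    have h3 : ∀ j, A (ps x μ s as (8 * n) j) = A' (ps x μ s as (8 * n) j) := by
      intro j
      apply hA
      refine le_trans ?_ (le_max_right _ _)
      exact Finset.le_sup (f := fun j => (ps x μ s as (8 * n) j).length) (Finset.mem_univ j)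
    simp only [h3]
  show (x ∈ langS A ↔ Ans A P M (t + 1) m y0) ↔ (x ∈ langS A' ↔ Ans A' P M (t + 1) m y0)
  rw [e1, e2]

theorem stepS (hLB : StmLB) (hSZ : StmSZ) (hCore : StmCore) (hMeas : StmMeas) (hAsk : StmAsked)
    (hDT : StmDTr) (hLoc : StmLoc) (hNum : StmNum) (hLang : StmLangS) (hInst : StmInstS)
    (hPos : StmPos) (P : Alg) : ∃ K : ℕ, ∀ (M : Alg) (t : ℕ) (α : List Bool) (hK ℓ : ℕ),
      ∃ x, kap x = K ∧ ∃ ℓ', LocalAt ℓ' (EvS t P M (hK * lg x) (pairBits x α) x) ∧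
        ∀ G, LocalAt ℓ G → fair (G ∩ EvS t P M (hK * lg x) (pairBits x α) x) ≤
          ENNReal.ofReal (1 - 1 / 2 ^ 15) * fair G := by
  classical
  obtain ⟨d, hd⟩ := poly_le_pow P.p
  obtain ⟨L0, hL0⟩ := eventually_atTop.1 hd
  refine ⟨KK d, fun M t α hK ℓ => ?_⟩
  -- the size
  obtain ⟨n, hn5, hnL, hnℓ, hnα, hc1, hc2, hc3⟩ : ∃ n : ℕ, 5 ≤ n ∧ L0 ≤ n ∧ ℓ ≤ n ∧
      α.length + 1 ≤ n ∧
      ((t + 1) * (130 * (t + 1) * hK + 2) + 20) * n +
        ((t + 1) * (130 * (t + 1) * hK + 2) + 20) ≤ 2 ^ (n / 8) ∧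
      (2048 * 67 * (d + 1) * (t + 1)) * n + (2048 * 67 * (d + 1) * (t + 1)) ≤ 2 ^ (n / 8) ∧
      (4 * (2 * (KK d * (t + 1)) + 64 * (t + 1) + 3 * t + 100)) * n +
        (4 * (2 * (KK d * (t + 1)) + 64 * (t + 1) + 3 * t + 100)) ≤ 2 ^ (n / 8) := by
    have hev := ((((((eventually_ge_atTop 5).and (eventually_ge_atTop L0)).and
      (eventually_ge_atTop ℓ)).and (eventually_ge_atTop (α.length + 1))).and
      (lin_exp ((t + 1) * (130 * (t + 1) * hK + 2) + 20))).and
      (lin_exp (2048 * 67 * (d + 1) * (t + 1)))).and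
      (lin_exp (4 * (2 * (KK d * (t + 1)) + 64 * (t + 1) + 3 * t + 100)))
    obtain ⟨n, hn⟩ := hev.exists
    exact ⟨n, hn.1.1.1.1.1.1, hn.1.1.1.1.1.2, hn.1.1.1.1.2, hn.1.1.1.2, hn.1.1.2, hn.1.2, hn.2⟩
  set u : ℕ := n / 8 with hu
  have hun : 8 * u ≤ n := Nat.mul_div_le n 8
  set c : ℕ := 2048 * 67 * (d + 1) * (t + 1) * n with hc
  set s : ℕ := Nat.size c with hsdef
  have hcs : c < 2 ^ s := Nat.lt_size_self c
  have hcpos : 2048 * 67 ≤ c := by
    rw [hc]
    calc 2048 * 67 = 2048 * 67 * 1 * 1 * 1 := by norm_num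
      _ ≤ 2048 * 67 * (d + 1) * (t + 1) * n :=
        Nat.mul_le_mul (Nat.mul_le_mul (Nat.mul_le_mul le_rfl (by omega)) (by omega)) (by omega)
  have hs1 : 1 ≤ s := by
    by_contra h
    have h0 : s = 0 := by omega
    rw [h0] at hcs
    omega
  have hcs2 : 2 ^ s ≤ 2 * c := by
    have h1 : 2 ^ (s - 1) ≤ c := Nat.lt_size.1 (by omega)
    calc 2 ^ s = 2 * 2 ^ (s - 1) := by
          rw [← pow_succ']; congr 1; omega
      _ ≤ 2 * c := by omega
  have h2u : 2 ^ u ≤ 2 ^ n := Nat.pow_le_pow_right (by norm_num) (by omega)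
  have hp0 : 0 < 2048 * 67 * (d + 1) * (t + 1) := by positivity
  have hsn : s ≤ n := Nat.size_le.2 (by omega)
  set L : ℕ := 65 * (t + 1) * n with hL
  have hLn : 65 * n ≤ L := by
    rw [hL]
    nlinarith [Nat.zero_le (t * n)]
  set m : ℕ := hK * L with hm
  have hmm : (t + 1) * (2 * m + 2) + 20 ≤ 2 ^ (2 * u) := by
    have h1 : 2 ^ u ≤ 2 ^ (2 * u) := Nat.pow_le_pow_right (by norm_num) (by omega)
    refine le_trans ?_ (hc1.trans h1)
    rw [hm, hL]
    have h2 : (t + 1) * (2 * (hK * (65 * (t + 1) * n)) + 2) =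
        (t + 1) * (130 * (t + 1) * hK) * n + (t + 1) * 2 := by ring
    rw [h2]
    have h3 : (t + 1) * (130 * (t + 1) * hK) * n ≤
        ((t + 1) * (130 * (t + 1) * hK + 2) + 20) * n := by
      apply Nat.mul_le_mul_right
      nlinarith
    have h4 : (t + 1) * 2 + 20 ≤ (t + 1) * (130 * (t + 1) * hK + 2) + 20 := by
      have : (t + 1) * 2 ≤ (t + 1) * (130 * (t + 1) * hK + 2) :=
        Nat.mul_le_mul_left _ (Nat.le_add_left _ _)
      omega
    omega
  obtain ⟨as, has⟩ := hSZ n t hn5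
  obtain ⟨μ, hμ1, hμ2, hμ3⟩ := inst_bound2 hLB hCore hAsk hDT hNum hPos hn5 hun has hmm
    (s := s) (Nat.le_sub_one_of_lt
      ((show 2048 ≤ c from le_trans (by norm_num) hcpos).trans_lt hcs))
  have hKd : 22 * c = KK d * (t + 1) * n := by rw [hc, KK]; ring
  have hμK : μ ≤ KK d * (t + 1) * n := by
    rw [← hKd]
    omega
  have hμ4 : 67 * (d + 1) * (t + 1) * n ≤ μ := by
    refine le_trans ?_ hμ1
    rw [Nat.le_div_iff_mul_le (by norm_num)]
    have : 67 * (d + 1) * (t + 1) * n * 2048 = c := by rw [hc]; ring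
    omega
  have hsum : as.sum ≤ (t + 1) * (64 * n) := by
    have := sum_le has.2.1
    rwa [has.1] at this
  have h65 : 2 ^ (n / 8) < 2 ^ (L - 1) := Nat.pow_lt_pow_right (by norm_num) (by omega)
  obtain ⟨x, hI, hlg, hxl⟩ := hInst t n (KK d) μ s as has.1 has.2.1 hsn (by
      refine hμK.trans ?_
      have h1 : KK d * (65 * (t + 1) * n) = 65 * (KK d * (t + 1) * n) := by ring
      rw [h1]
      omega) (by
      refine lt_of_le_of_lt ?_ h65
      refine le_trans ?_ hc3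
      have h2 : (t + 1) * (64 * n) = 64 * (t + 1) * n := by ring
      have h3 : KK d ≤ KK d * (t + 1) * n := by
        calc KK d = KK d * 1 * 1 := by ring
          _ ≤ KK d * (t + 1) * n := Nat.mul_le_mul (Nat.mul_le_mul le_rfl (by omega)) (by omega)
      have h4 : t ≤ t * n := Nat.le_mul_of_pos_right _ (by omega)
      have h5 : (4 * (2 * (KK d * (t + 1)) + 64 * (t + 1) + 3 * t + 100)) * n =
        8 * (KK d * (t + 1) * n) + 4 * (64 * (t + 1) * n) + 12 * (t * n) + 400 * n := by ring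
      rw [h5]
      have h6 := hsum
      rw [h2] at h6
      refine le_trans ?_ (Nat.le_add_right _ _)
      clear hc1 hc2 hc3 h5 h2
      generalize KK d * (t + 1) * n = A1 at *
      generalize 64 * (t + 1) * n = B1 at *
      generalize t * n = C1 at *
      omega)
  rw [← hL] at hlg hxl
  refine ⟨x, hI.kap, ?_⟩
  rw [hlg]
  obtain ⟨ℓ', hℓ'⟩ := evS_local hLoc hLang hI has.1 P M (hK * L) (pairBits x α)
  refine ⟨ℓ', hℓ', fun G hG => ?_⟩
  have hnx : n ≤ x.length := by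
    rw [hxl]
    have h1 : n < 2 ^ n := Nat.lt_two_pow_self
    have h2 : 2 ^ n ≤ 2 ^ (L - 1) := Nat.pow_le_pow_right (by norm_num) (by omega)
    omega
  refine hMeas _ (ps x μ s as (8 * n)) (hPos x μ s as (8 * n)).1 ℓ ℓ' (fun j => ?_) G _ hG hℓ'
    (1 - 1 / 2 ^ 15) (by norm_num) fun A0 => ?_
  · have h1 := (hPos x μ s as (8 * n)).2 j
    omega
  · have hy0 : (pairBits x α).length ≤ 2 ^ (L + 1) := by
      rw [length_pairBits]
      have h1 : 2 ^ (L + 1) = 4 * x.length := by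
        rw [hxl, show L + 1 = (L - 1) + 2 by omega, pow_add]
        ring
      omega
    have hq : 16 * P.p.eval (pairBits x α).length ≤ 2 ^ μ := by
      have h1 : P.p.eval (pairBits x α).length ≤ (pairBits x α).length ^ d := by
        apply hL0
        rw [length_pairBits]
        omega
      calc 16 * P.p.eval (pairBits x α).length ≤ 2 ^ 4 * (2 ^ (L + 1)) ^ d :=
            Nat.mul_le_mul (by norm_num) (h1.trans (Nat.pow_le_pow_left hy0 d))
        _ = 2 ^ (4 + (L + 1) * d) := by rw [pow_add 2 4, ← pow_mul 2 (L + 1) d]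
        _ ≤ 2 ^ μ := by
          apply Nat.pow_le_pow_right (by norm_num)
          refine le_trans ?_ hμ4
          have h2 : 67 * (d + 1) * (t + 1) * n = 65 * (t + 1) * n * d + 2 * ((t + 1) * n * d) +
            67 * ((t + 1) * n) := by ring
          have h3 : (L + 1) * d = 65 * (t + 1) * n * d + d := by rw [hL]; ring
          have h4 : 1 * d ≤ (t + 1) * n * d :=
            Nat.mul_le_mul_right _ (Nat.succ_le_of_lt (Nat.mul_pos (by omega) (by omega)))
          have h5 : 1 * 5 ≤ (t + 1) * n := Nat.mul_le_mul (by omega) hn5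
          omega
    have h1 := hμ3 (fun A => x ∈ langS A) x (pairBits x α) P M
      (fun A => hLang t n (KK d) μ s as x A hI has.1) hq A0
    refine le_trans (le_of_eq ?_) h1
    rw [Ex_eq_sum, Ex_eq_sum]
    refine Finset.sum_congr rfl fun z _ => ?_
    congr 1
    exact ite_iff1 Iff.rfl

theorem finalS (hLB : StmLB) (hSZ : StmSZ) (hCore : StmCore) (hMeas : StmMeas) (hNull : StmNull)
    (hAsk : StmAsked) (hDT : StmDTr) (hLoc : StmLoc) (hNum : StmNum) (hLang : StmLangS)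
    (hInst : StmInstS) (hPos : StmPos) :
    ∀ᵐ A ∂fair, ¬ BigStar A kap (langS A) := by
  have hst := stepS hLB hSZ hCore hMeas hAsk hDT hLoc hNum hLang hInst hPos
  choose K hKs using hst
  have hae : ∀ᵐ A ∂fair, ∀ (P M : Alg) (t : ℕ) (α : List Bool) (hK : ℕ),
      ¬ ∀ x, kap x = K P → A ∈ EvS t P M (hK * lg x) (pairBits x α) x := by
    simp only [ae_all_iff]
    intro P M t α hK
    have h0 : fair {A | ∀ x, kap x = K P → A ∈ EvS t P M (hK * lg x) (pairBits x α) x} = 0 := by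
      refine hNull _ (1 - 1 / 2 ^ 15) (by norm_num) (by norm_num) fun ℓ => ?_
      obtain ⟨x, hx, ℓ', h1, h2⟩ := hKs P M t α hK ℓ
      exact ⟨_, ℓ', fun A hA => hA x hx, h1, h2⟩
    rw [ae_iff]
    simpa using h0
  filter_upwards [hae] with A hA hbig
  obtain ⟨P, M, α, h, g, ⟨MP, hMP⟩, hx⟩ := hbig
  refine hA MP M (g (K MP)) (α (K MP)) (h (K MP)) fun x hk => ?_
  show x ∈ langS A ↔ Ans A MP M (g (K MP) + 1) (h (K MP) * lg x) (pairBits x (α (K MP)))
  rw [hx x, hk]
  unfold Ans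
  rw [hMP]
  rfl

end Pool.Agent.W932.RO
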